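import Mathlib
import Pool.Agent.W164.MO.Defs

/-!
# Two small lemmas of project MO
-/

set_option autoImplicit false

namespace Pool.Agent.W424.MO

open Pool.Agent.W164.MO

lemma b2_of (x : ℝ) (m : ℤ) (h0 : 0 ≤ x - m) (h1 : x - m ≤ 1) :
    b2 x = (x - m) ^ 2 - (x - m) + 1 / 6 := by
  rcases lt_or_eq_of_le h1 with h | h
  · have hf : Int.fract x = x - m := by
      rw [Int.fract_eq_iff]
      exact ⟨h0, h, m, by ring⟩
    unfold b2
    rw [hf]
  · have hf : Int.fract x = 0 := by
      rw [Int.fract_eq_iff]
      refine ⟨le_refl _, one_pos, m + 1, ?_⟩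
      push_cast
      linarith
    unfold b2
    rw [hf, h]
    norm_num

theorem sn2 : S_SN2 := by
  intro Δ x hΔ hΔ2
  have hf0 : 0 ≤ Int.fract x := Int.fract_nonneg x
  have hf1 : Int.fract x < 1 := Int.fract_lt_one x
  have hx : x = ⌊x⌋ + Int.fract x := (Int.floor_add_fract x).symm
  set f := Int.fract x with hf
  set n := ⌊x⌋ with hn
  have hb : b2 x = f ^ 2 - f + 1 / 6 := rfl
  rcases lt_or_ge f Δ with h1 | h1
  · have e1 : b2 (x + Δ) = (f + Δ) ^ 2 - (f + Δ) + 1 / 6 := by
      rw [b2_of (x + Δ) n (by linarith) (by linarith)]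
      have : x + Δ - n = f + Δ := by linarith
      rw [this]
    have e2 : b2 (x - Δ) = (f - Δ + 1) ^ 2 - (f - Δ + 1) + 1 / 6 := by
      have h2 : x - Δ - ((n - 1 : ℤ) : ℝ) = f - Δ + 1 := by push_cast; linarith
      rw [b2_of (x - Δ) (n - 1) (by rw [h2]; linarith) (by rw [h2]; linarith), h2]
    have m1 : max 0 (1 - f / Δ) = 1 - f / Δ := by
      apply max_eq_right
      rw [sub_nonneg, div_le_one hΔ]
      exact h1.le
    have m2 : max 0 (1 - (1 - f) / Δ) = 0 := by
      apply max_eq_left
      rw [sub_nonpos, one_le_div hΔ]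
      linarith
    rw [e1, e2, hb, m1, m2]
    field_simp
    ring
  · rcases le_or_gt f (1 - Δ) with h2 | h2
    · have e1 : b2 (x + Δ) = (f + Δ) ^ 2 - (f + Δ) + 1 / 6 := by
        rw [b2_of (x + Δ) n (by linarith) (by linarith)]
        have : x + Δ - n = f + Δ := by linarith
        rw [this]
      have e2 : b2 (x - Δ) = (f - Δ) ^ 2 - (f - Δ) + 1 / 6 := by
        rw [b2_of (x - Δ) n (by linarith) (by linarith)]
        have : x - Δ - n = f - Δ := by linarith
        rw [this]
      have m1 : max 0 (1 - f / Δ) = 0 := by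
        apply max_eq_left
        rw [sub_nonpos, one_le_div hΔ]
        exact h1
      have m2 : max 0 (1 - (1 - f) / Δ) = 0 := by
        apply max_eq_left
        rw [sub_nonpos, one_le_div hΔ]
        linarith
      rw [e1, e2, hb, m1, m2]
      field_simp
      ring
    · have e1 : b2 (x + Δ) = (f + Δ - 1) ^ 2 - (f + Δ - 1) + 1 / 6 := by
        have h3 : x + Δ - ((n + 1 : ℤ) : ℝ) = f + Δ - 1 := by push_cast; linarith
        rw [b2_of (x + Δ) (n + 1) (by rw [h3]; linarith) (by rw [h3]; linarith), h3]
      have e2 : b2 (x - Δ) = (f - Δ) ^ 2 - (f - Δ) + 1 / 6 := by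
        rw [b2_of (x - Δ) n (by linarith) (by linarith)]
        have : x - Δ - n = f - Δ := by linarith
        rw [this]
      have m1 : max 0 (1 - f / Δ) = 0 := by
        apply max_eq_left
        rw [sub_nonpos, one_le_div hΔ]
        exact h1
      have m2 : max 0 (1 - (1 - f) / Δ) = 1 - (1 - f) / Δ := by
        apply max_eq_right
        rw [sub_nonneg, div_le_one hΔ]
        linarith
      rw [e1, e2, hb, m1, m2]
      field_simp
      ring

theorem lp : S_LP := by
  intro v v' w D n hD hv hv' hd
  have hw : ∀ p, 0 ≤ w p := by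
    intro p
    have := abs_nonneg (v p)
    have := hv p
    linarith
  have key : ∀ l : List ℕ, 0 ≤ (l.map w).prod ∧ |(l.map v).prod| ≤ (l.map w).prod ∧
      |(l.map v).prod - (l.map v').prod| ≤ (l.map w).prod * D := by
    intro l
    induction l with
    | nil => simp [hD]
    | cons a l ih =>
      obtain ⟨h0, h1, h2⟩ := ih
      simp only [List.map_cons, List.prod_cons]
      have hwa := hw a
      have ha := hv a
      have ha' := hv' a
      have hda := hd a
      refine ⟨mul_nonneg hwa h0, ?_, ?_⟩
      · rw [abs_mul]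
        exact mul_le_mul (by linarith) h1 (abs_nonneg _) hwa
      · have e : v a * (l.map v).prod - v' a * (l.map v').prod =
            (v a - v' a) * (l.map v).prod + v' a * ((l.map v).prod - (l.map v').prod) := by ring
        rw [e]
        refine (abs_add_le _ _).trans ?_
        rw [abs_mul, abs_mul]
        have i1 : |v a - v' a| * |(l.map v).prod| ≤ (w a / 2 * D) * (l.map w).prod :=
          mul_le_mul hda h1 (abs_nonneg _) (by positivity)
        have i2 : |v' a| * |(l.map v).prod - (l.map v').prod| ≤ (w a / 2) * ((l.map w).prod * D) :=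
          mul_le_mul ha' h2 (abs_nonneg _) (by positivity)
        nlinarith
  exact ⟨(key n.primeFactorsList).2.1, (key n.primeFactorsList).2.2⟩

end Pool.Agent.W424.MO
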